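import Mathlib

set_option autoImplicit false

open Set Topology Filter TopologicalSpace

namespace Pool.Agent.Results.MP_5e9a16_gt.Complete

universe u v

/-- A pseudobase. -/
def Pseudobase {X : Type*} [TopologicalSpace X] (B : Set (Set X)) : Prop :=
  (∀ b ∈ B, (interior b).Nonempty) ∧ ∀ U, IsOpen U → U.Nonempty → ∃ b ∈ B, b ⊆ U

/-- Todd pseudocompleteness. -/
def Todd (X : Type*) [TopologicalSpace X] : Prop :=
  ∃ 𝓑 : ℕ → Set (Set X), (∀ n, Pseudobase (𝓑 n)) ∧ ∀ B : ℕ → Set X, (∀ n, B n ∈ 𝓑 n) →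
    (∀ n, closure (B (n + 1)) ⊆ interior (B n)) → (⋂ n, B n).Nonempty

section
variable {Y : Type*} [TopologicalSpace Y] [RegularSpace Y] {H : Type*} [Group H] [MetricSpace H]
  [IsTopologicalGroup H] (π : Y → H) (h : ℕ → H)

def Inv (s : Set Y × Set Y × Set H × ℕ) : Prop :=
  IsOpen s.1 ∧ IsOpen s.2.1 ∧ IsOpen s.2.2.1 ∧ s.2.2.1.Nonempty ∧ s.2.2.1 ⊆ closure (π '' s.1) ∧
    ∀ k, s.2.2.2 ≤ k → ∀ o ∈ s.2.2.1, o * h k ∈ closure (π '' s.2.1)

omit [Group H] [IsTopologicalGroup H] in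
lemma shrink (hπ : Continuous π)
    (hno : ∀ W, IsOpen W → W.Nonempty → ∃ O, IsOpen O ∧ O.Nonempty ∧ O ⊆ closure (π '' W))
    {𝓑 : Set (Set Y)} (hB : Pseudobase 𝓑) {W : Set Y} {V : Set H} (hW : IsOpen W) (hV : IsOpen V)
    (hne : V.Nonempty) (hVW : V ⊆ closure (π '' W)) : ∃ B ∈ 𝓑, closure B ⊆ W ∧ π '' B ⊆ V ∧
      ∃ O, IsOpen O ∧ O.Nonempty ∧ O ⊆ V ∧ O ⊆ closure (π '' interior B) := by
  obtain ⟨v, hv⟩ := hne
  obtain ⟨_, hyV, y, hyW, rfl⟩ := mem_closure_iff.1 (hVW hv) V hV hv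
  obtain ⟨C, hC, hCc, hCs⟩ := exists_mem_nhds_isClosed_subset
    ((hW.inter (hV.preimage hπ)).mem_nhds ⟨hyW, hyV⟩)
  obtain ⟨B, hBm, hBC⟩ := hB.2 _ isOpen_interior ⟨y, mem_interior_iff_mem_nhds.2 hC⟩
  have h1 : closure B ⊆ W ∩ π ⁻¹' V := (closure_minimal (hBC.trans interior_subset) hCc).trans hCs
  have h2 : π '' B ⊆ V := by rintro _ ⟨b, hb, rfl⟩; exact (h1 (subset_closure hb)).2
  obtain ⟨O, hO, ⟨o, ho⟩, hOs⟩ := hno _ isOpen_interior (hB.1 B hBm)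
  obtain ⟨z, hz1, hz2⟩ := mem_closure_iff.1 (hOs ho) O hO ho
  exact ⟨B, hBm, h1.trans inter_subset_left, h2, O ∩ V, hO.inter hV,
    ⟨z, hz1, h2 (image_mono interior_subset hz2)⟩, inter_subset_right, inter_subset_left.trans hOs⟩

lemma split {P : Set H} (hP : IsOpen P) (hne : P.Nonempty) :
    ∃ Q, IsOpen Q ∧ Q.Nonempty ∧ Q ⊆ P ∧ ∃ N ∈ 𝓝 (1 : H), ∀ q ∈ Q, ∀ m ∈ N, q * m ∈ P := by
  obtain ⟨p, hp⟩ := hne
  have : (fun z : H × H => z.1 * z.2) ⁻¹' P ∈ 𝓝 (p, (1 : H)) :=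
    continuous_mul.continuousAt.preimage_mem_nhds (hP.mem_nhds (by simpa using hp))
  obtain ⟨A, hA, N, hN, hs⟩ := mem_nhds_prod_iff.1 this
  refine ⟨interior A, isOpen_interior, ⟨p, mem_interior_iff_mem_nhds.2 hA⟩, fun q hq => ?_, N, hN,
    fun q hq m hm => hs (mk_mem_prod (interior_subset hq) hm)⟩
  simpa using hs (mk_mem_prod (interior_subset hq) (mem_of_mem_nhds hN))

lemma step (hπ : Continuous π)
    (hno : ∀ W, IsOpen W → W.Nonempty → ∃ O, IsOpen O ∧ O.Nonempty ∧ O ⊆ closure (π '' W))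
    (hc : ∀ N ∈ 𝓝 (1 : H), ∃ K, ∀ k l, K ≤ k → K ≤ l → h k * (h l)⁻¹ ∈ N ∧ (h l)⁻¹ * h k ∈ N)
    {𝓑 : Set (Set Y)} (hB : Pseudobase 𝓑) (n : ℕ) (s : {s // Inv π h s}) :
    ∃ (t : {s // Inv π h s}) (B B' : Set Y) (k : ℕ), B ∈ 𝓑 ∧ B' ∈ 𝓑 ∧ closure B ⊆ s.1.1 ∧
      closure B' ⊆ s.1.2.1 ∧ t.1.1 = interior B ∧ t.1.2.1 = interior B' ∧ n ≤ k ∧
      ∀ x ∈ B, ∀ x' ∈ B', dist (π x' * (h k)⁻¹) (π x) < 1 / ((n : ℝ) + 1) := by
  obtain ⟨⟨W, W', O, K⟩, hW, hW', hO, ⟨o, ho⟩, h1, h2⟩ := s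
  have hr : 0 < 1 / ((n : ℝ) + 1) / 2 := by positivity
  obtain ⟨B, hBm, hBW, hBO, O2, hO2, hO2n, hO2s, hO2c⟩ := shrink π hπ hno hB hW
    (hO.inter (Metric.isOpen_ball (x := o) (ε := 1 / ((n : ℝ) + 1) / 2)))
    ⟨o, ho, Metric.mem_ball_self hr⟩ (inter_subset_left.trans h1)
  obtain ⟨O3, hO3, ⟨o3, ho3⟩, hO3s, N, hN, hmul⟩ := split hO2 hO2n
  obtain ⟨K1, hK1⟩ := hc N hN
  set k1 := max K1 (max K n) with hk1
  obtain ⟨B', hBm', hBW', hBO', O4, hO4, hO4n, hO4s, hO4c⟩ := shrink π hπ hno hB hW'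
    (V := {z | z * (h k1)⁻¹ ∈ O3}) (hO3.preimage (continuous_mul_const _))
    ⟨o3 * h k1, by simpa using ho3⟩ fun z hz => by
      simpa using h2 k1 ((le_max_left _ _).trans (le_max_right _ _)) _ (hO2s (hO3s hz)).1
  obtain ⟨P, hP, ⟨p, hp⟩, hPs, N', hN', hmul'⟩ := split hO4 hO4n
  obtain ⟨K2, hK2⟩ := hc N' hN'
  set k2 := max K2 k1 with hk2
  refine ⟨⟨(interior B, interior B', {z | z * h k2 ∈ P}, k2), isOpen_interior, isOpen_interior,
    hP.preimage (continuous_mul_const _), ⟨p * (h k2)⁻¹, by simpa using hp⟩, fun z hz => ?_,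
    fun k hk z hz => ?_⟩, B, B', k1, hBm, hBm', hBW, hBW', rfl, rfl,
    (le_max_right _ _).trans (le_max_right _ _), fun x hx x' hx' => ?_⟩
  · have := hmul _ (hO4s (hPs hz)) _
      (hK1 k1 k2 (le_max_left _ _) ((le_max_left _ _).trans (le_max_right _ _))).1
    refine hO2c ?_
    simpa [mul_assoc] using this
  · have := hmul' _ hz _ (hK2 k k2 ((le_max_left _ _).trans hk) (le_max_left _ _)).2
    refine hO4c ?_
    simpa [mul_assoc] using this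
  · have a1 := (hBO ⟨x, hx, rfl⟩).2
    have a2 := (hO2s (hO3s (hBO' ⟨x', hx', rfl⟩))).2
    rw [Metric.mem_ball] at a1 a2
    linarith [dist_triangle_right (π x' * (h k1)⁻¹) (π x) o]

lemma core (hT : Todd Y) (hπ : Continuous π) (hd : DenseRange π)
    (hno : ∀ W, IsOpen W → W.Nonempty → ∃ O, IsOpen O ∧ O.Nonempty ∧ O ⊆ closure (π '' W))
    (hc : ∀ N ∈ 𝓝 (1 : H), ∃ K, ∀ k l, K ≤ k → K ≤ l → h k * (h l)⁻¹ ∈ N ∧ (h l)⁻¹ * h k ∈ N) :
    ∃ (k : ℕ → ℕ) (a : H), Tendsto k atTop atTop ∧ Tendsto (h ∘ k) atTop (𝓝 a) := by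
  obtain ⟨𝓑, hB, hint⟩ := hT
  choose t B B' k h1 h2 h3 h4 h5 h6 h7 h8 using fun n => step π h hπ hno hc (hB n) n
  have h0 : Inv π h (univ, univ, univ, 0) := ⟨isOpen_univ, isOpen_univ, isOpen_univ, univ_nonempty,
    fun z _ => by simpa using hd z, fun _ _ z _ => by simpa using hd _⟩
  obtain ⟨s, -, hs⟩ : ∃ s : ℕ → {s // Inv π h s}, s 0 = ⟨_, h0⟩ ∧ ∀ n, s (n + 1) = t n (s n) :=
    ⟨fun n => Nat.rec ⟨_, h0⟩ t n, rfl, fun _ => rfl⟩
  obtain ⟨x, hx⟩ := hint (fun n => B n (s n)) (fun n => h1 n _) fun n => by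
    have := h3 (n + 1) (s (n + 1))
    rwa [hs n, h5, ← hs n] at this
  obtain ⟨x', hx'⟩ := hint (fun n => B' n (s n)) (fun n => h2 n _) fun n => by
    have := h4 (n + 1) (s (n + 1))
    rwa [hs n, h6, ← hs n] at this
  refine ⟨fun n => k n (s n), (π x)⁻¹ * π x', tendsto_atTop_mono (fun n => h7 n _) tendsto_id, ?_⟩
  have : Tendsto (fun n => π x' * (h (k n (s n)))⁻¹) atTop (𝓝 (π x)) :=
    tendsto_iff_dist_tendsto_zero.2 (squeeze_zero (fun _ => dist_nonneg)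
      (fun n => (h8 n _ x (mem_iInter.1 hx n) x' (mem_iInter.1 hx' n)).le)
      tendsto_one_div_add_atTop_nhds_zero_nat)
  simpa [Function.comp_def] using this.inv.mul_const (π x')

end

theorem result (I : Type u) (H : I → Type v) [∀ i, Group (H i)] [∀ i, TopologicalSpace (H i)]
    [∀ i, IsTopologicalGroup (H i)] [∀ i, MetrizableSpace (H i)] [∀ i, SeparableSpace (H i)]
    (G : Subgroup (∀ i, H i)) (hG : Dense (G : Set (∀ i, H i))) (hT : Todd G) (j : I) :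
    IsCompletelyMetrizableSpace (H j) := by
  have key : ∀ h : ℕ → H j, (∀ N ∈ 𝓝 (1 : H j), ∃ K, ∀ k l, K ≤ k → K ≤ l →
      h k * (h l)⁻¹ ∈ N ∧ (h l)⁻¹ * h k ∈ N) →
      ∃ (k : ℕ → ℕ) (a : H j), Tendsto k atTop atTop ∧ Tendsto (h ∘ k) atTop (𝓝 a) := by
    intro h hc
    letI := metrizableSpaceMetric (H j)
    refine core (fun g : G => g.1 j) h hT ((continuous_apply j).comp continuous_subtype_val)
      ((Function.surjective_eval j).denseRange.comp hG.denseRange_val (continuous_apply j)) ?_ hc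
    rintro W ⟨U, hU, rfl⟩ ⟨g, hg⟩
    refine ⟨Function.eval j '' U, isOpenMap_eval j U hU, ⟨_, g.1, hg, rfl⟩,
      (image_mono (hG.open_subset_closure_inter hU)).trans
      ((image_closure_subset_closure_image (continuous_apply j)).trans (closure_mono ?_))⟩
    rintro _ ⟨z, hz, rfl⟩
    exact ⟨⟨z, hz.2⟩, hz.1, rfl⟩
  letI U : UniformSpace (H j) := (IsTopologicalGroup.rightUniformSpace (H j) ⊓
    IsTopologicalGroup.leftUniformSpace (H j)).replaceTopology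
      (by rw [UniformSpace.toTopologicalSpace_inf]; exact (inf_idem _).symm)
  have hU : uniformity (H j) = comap (fun p : H j × H j => p.2 * p.1⁻¹) (𝓝 1) ⊓
      comap (fun p : H j × H j => p.1⁻¹ * p.2) (𝓝 1) := rfl
  haveI : (uniformity (H j)).IsCountablyGenerated := by rw [hU]; infer_instance
  haveI : CompleteSpace (H j) := UniformSpace.complete_of_cauchySeq_tendsto fun h hh => by
    have h1 := cauchySeq_iff_tendsto.1 hh
    rw [hU, tendsto_inf, tendsto_comap_iff, tendsto_comap_iff] at h1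
    obtain ⟨k, a, hk, ha⟩ := key h fun N hN => by
      obtain ⟨⟨a, b⟩, hab⟩ := eventually_atTop.1 ((h1.1.eventually hN).and (h1.2.eventually hN))
      exact ⟨max a b, fun k l hk hl => hab (l, k)
        ⟨(le_max_left _ _).trans hl, (le_max_right _ _).trans hk⟩⟩
    exact ⟨a, tendsto_nhds_of_cauchySeq_of_subseq hh hk ha⟩
  exact IsCompletelyMetrizableSpace.of_completeSpace_metrizable

end Pool.Agent.Results.MP_5e9a16_gt.Complete
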